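import Pool.Agent.V1163.TwoFano

/-!
# Left-transitivity of the fold group does not imply left-cut-percolation

The bigraph `G` consists of two disjoint copies of the Heawood graph `K` (points and lines of the
Fano plane) and one further right vertex adjacent to all left vertices.  For every automorphism `g`
of `K` the twisted swap `(x, 0) ↦ (g x, 1)`, `(y, 1) ↦ (g⁻¹ y, 0)` is a fold, so the group generated
by the folds is transitive on the left vertices.  `K` has no folds, so every fold of `G` swaps the
two copies, and a folding sequence started from one left vertex never contains more than one left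
vertex of each copy.
-/

set_option autoImplicit false

namespace Pool.Agent.Results.MP_d5e15b_co.TwoHeawoodLeft

open Pool.Agent.V1163.TwoFano

/-- the underlying graph of a bigraph with left vertices `A`, right vertices `B` and edges `E` -/
def graph {A B : Type} (E : A → B → Prop) : SimpleGraph (A ⊕ B) where
  Adj u v := (∃ a b, u = Sum.inl a ∧ v = Sum.inr b ∧ E a b) ∨
    (∃ a b, v = Sum.inl a ∧ u = Sum.inr b ∧ E a b)
  symm := ⟨fun _ _ h => h.symm⟩
  loopless := ⟨fun u h => by
    rcases h with ⟨a, b, h1, h2, -⟩ | ⟨a, b, h1, h2, -⟩ <;> rw [h1] at h2 <;> cases h2⟩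

/-- an automorphism preserving the sides: a pair of permutations preserving the edges -/
def IsAut {A B : Type} (E : A → B → Prop) (φ : Equiv.Perm A × Equiv.Perm B) : Prop :=
  ∀ a b, E (φ.1 a) (φ.2 b) ↔ E a b

/-- the action on all vertices -/
def act {A B : Type} (φ : Equiv.Perm A × Equiv.Perm B) : A ⊕ B → A ⊕ B := Sum.map φ.1 φ.2

/-- the fixed vertices -/
def Fix {A B : Type} (φ : Equiv.Perm A × Equiv.Perm B) : Set (A ⊕ B) := {v | act φ v = v}

/-- a cut-involution: an automorphism `φ` with `φ * φ = 1` such that `G - Fix φ` is disconnected -/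
def IsCutInvolution {A B : Type} (E : A → B → Prop) (φ : Equiv.Perm A × Equiv.Perm B) : Prop :=
  IsAut E φ ∧ φ * φ = 1 ∧ ¬ ((graph E).induce (Fix φ)ᶜ).Preconnected

/-- a fold `(φ, L)`: `φ` is a cut-involution, `L`, `Fix φ` and `φ(L)` partition the vertex set, and
`L` is a union of connected components of `G - Fix φ` (it is closed under adjacency in
`G - Fix φ`) -/
def IsFold {A B : Type} (E : A → B → Prop) (φ : Equiv.Perm A × Equiv.Perm B) (L : Set (A ⊕ B)) :
    Prop :=
  IsCutInvolution E φ ∧
  (∀ u v, u ∉ Fix φ → v ∉ Fix φ → (graph E).Adj u v → u ∈ L → v ∈ L) ∧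
  L ∩ Fix φ = ∅ ∧ (act φ '' L) ∩ Fix φ = ∅ ∧ L ∩ (act φ '' L) = ∅ ∧
  L ∪ Fix φ ∪ (act φ '' L) = Set.univ

open Classical in
/-- the left-folding map on left vertices -/
noncomputable def foldA {A B : Type} (φ : Equiv.Perm A × Equiv.Perm B) (L : Set (A ⊕ B)) (a : A) :
    A :=
  if Sum.inl a ∈ L then a else φ.1 a

/-- the group generated by the fold involutions -/
def foldGroup {A B : Type} (E : A → B → Prop) : Subgroup (Equiv.Perm A × Equiv.Perm B) :=
  Subgroup.closure {φ | ∃ L, IsFold E φ L}

/-- the bigraph is left-cut-percolating: there is a sequence `s 0, ..., s m` of sets of left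
vertices, starting with a singleton and ending with all left vertices, in which every set is the
preimage of the previous one under the left-folding map of some fold -/
def LeftCutPercolating {A B : Type} (E : A → B → Prop) : Prop :=
  ∃ (m : ℕ) (s : ℕ → Set A), (∃ a, s 0 = {a}) ∧ s m = Set.univ ∧
    ∀ i < m, ∃ φ L, IsFold E φ L ∧ s (i + 1) = {a | foldA φ L a ∈ s i}

/-- the edges of the example -/
def E1 (a : Bool × ZMod 7) : Option (Bool × ZMod 7) → Prop
  | none => True
  | some b => E a b

theorem adj_iff {A B : Type} (E : A → B → Prop) (a : A) (b : B) :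
    (graph E).Adj (Sum.inl a) (Sum.inr b) ↔ E a b := by
  constructor
  · rintro (⟨a', b', h1, h2, h⟩ | ⟨a', b', h1, h2, h⟩)
    · cases h1
      cases h2
      exact h
    · cases h1
  · intro h
    exact Or.inl ⟨a, b, rfl, rfl, h⟩

theorem act_act {A B : Type} (φ : Equiv.Perm A × Equiv.Perm B) (h : φ * φ = 1) (v : A ⊕ B) :
    act φ (act φ v) = v := by
  have h1 : φ.1 * φ.1 = 1 := congrArg Prod.fst h
  have h2 : φ.2 * φ.2 = 1 := congrArg Prod.snd h
  rcases v with a | b
  · show Sum.inl ((φ.1 * φ.1) a) = Sum.inl a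
    rw [h1]
    rfl
  · show Sum.inr ((φ.2 * φ.2) b) = Sum.inr b
    rw [h2]
    rfl

/-- exactly one of `v`, `φ v` is in `L` if `v` is moved -/
theorem fold_swap {A B : Type} {E : A → B → Prop} {φ : Equiv.Perm A × Equiv.Perm B}
    {L : Set (A ⊕ B)} (h : IsFold E φ L) (v : A ⊕ B) (hv : act φ v ≠ v) :
    v ∈ L ↔ act φ v ∉ L := by
  obtain ⟨⟨-, hinv, -⟩, -, -, -, h5, h6⟩ := h
  constructor
  · intro hvL hvL'
    have : act φ v ∈ L ∩ (act φ '' L) := ⟨hvL', v, hvL, rfl⟩
    rw [h5] at this
    exact this
  · intro hvL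
    have : v ∈ L ∪ Fix φ ∪ (act φ '' L) := by
      rw [h6]
      trivial
    rcases this with (h | h) | ⟨w, hw, hwv⟩
    · exact h
    · exact absurd h hv
    · exfalso
      apply hvL
      rw [← hwv, act_act φ hinv]
      exact hw

theorem not_E_all (b : Bool × ZMod 7) : ∃ a, ¬ E a b :=
  ⟨(!b.1, 0), fun h => by
    have h1 : (!b.1) = b.1 := h.1
    revert h1
    cases b.1 <;> simp⟩

/-- classification of the folds -/
theorem fold_class {φ : Equiv.Perm (Bool × ZMod 7) × Equiv.Perm (Option (Bool × ZMod 7))}
    {L : Set ((Bool × ZMod 7) ⊕ Option (Bool × ZMod 7))} (h : IsFold E1 φ L) :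
    (∀ a, (φ.1 a).1 ≠ a.1) ∧ ∃ c : Bool, ∀ a, Sum.inl a ∈ L ↔ a.1 = c := by
  have haut := h.1.1
  have hinv := h.1.2.1
  -- the extra vertex is fixed
  have hnone : φ.2 none = none := by
    rcases hb : φ.2 none with _ | b
    · rfl
    · exfalso
      obtain ⟨a, ha⟩ := not_E_all b
      have h1 := (haut (φ.1.symm a) none).2 trivial
      rw [hb, Equiv.apply_symm_apply] at h1
      exact ha h1
  have hsome : ∀ b, ∃ b', φ.2 (some b) = some b' := by
    intro b
    rcases hb : φ.2 (some b) with _ | b'
    · rw [← hnone] at hb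
      cases φ.2.injective hb
    · exact ⟨b', rfl⟩
  choose β hβ using hsome
  have key := two_core φ.1 β
    (fun a b hab => by
      have h1 := (haut a (some b)).2 hab
      rw [hβ] at h1
      exact h1)
    (fun a => by
      have h1 : φ.1 * φ.1 = 1 := congrArg Prod.fst hinv
      show (φ.1 * φ.1) a = a
      rw [h1]
      rfl)
    (fun a => Sum.inl a ∈ L) (fun b => Sum.inr (some b) ∈ L)
    (fun a b hab ha hb => by
      have ha' : (Sum.inl a : (Bool × ZMod 7) ⊕ Option (Bool × ZMod 7)) ∉ Fix φ :=
        fun hh => ha (Sum.inl_injective hh)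
      have hb' : (Sum.inr (some b) : (Bool × ZMod 7) ⊕ Option (Bool × ZMod 7)) ∉ Fix φ :=
        fun hh => hb (Option.some_injective _ ((hβ b).symm.trans (Sum.inr_injective hh)))
      have hadj := (adj_iff E1 a (some b)).2 hab
      exact ⟨h.2.1 _ _ ha' hb' hadj, h.2.1 _ _ hb' ha' hadj.symm⟩)
    (fun a ha => fold_swap h (Sum.inl a) (fun hh => ha (Sum.inl_injective hh)))
  rcases key with ⟨k1, k2⟩ | k
  · exfalso
    apply h.1.2.2
    rintro ⟨v, hv⟩ -
    exfalso
    apply hv
    rcases v with a | b
    · exact congrArg Sum.inl (k1 a)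
    · rcases b with _ | b
      · exact congrArg Sum.inr hnone
      · show Sum.inr (φ.2 (some b)) = Sum.inr (some b)
        rw [hβ, k2]
  · exact ⟨k.1, k.2.2.imp fun c hc => hc.1⟩

/-- the permutation of the right vertices induced by a permutation of the lines -/
def ext (g : Equiv.Perm (ZMod 7)) : Equiv.Perm (Option (Bool × ZMod 7)) := Equiv.optionCongr (tw g)

theorem ext_none (g : Equiv.Perm (ZMod 7)) : ext g none = none := rfl

theorem ext_some (g : Equiv.Perm (ZMod 7)) (b : Bool × ZMod 7) : ext g (some b) = some (tw g b) :=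
  rfl

/-- the copy of a vertex -/
def copy : (Bool × ZMod 7) ⊕ Option (Bool × ZMod 7) → Option Bool
  | Sum.inl a => some a.1
  | Sum.inr (some b) => some b.1
  | Sum.inr none => none

/-- the twisted swaps are folds -/
theorem tw_fold (g : Equiv.Perm (ZMod 7)) (hg : Good g) :
    IsFold E1 (tw g, ext g) {v | copy v = some false} := by
  have hcopy : ∀ v, copy (act (tw g, ext g) v) = (copy v).map (! ·) := by
    rintro (a | (_ | b)) <;> rfl
  have hadj : ∀ u v, (graph E1).Adj u v → copy u ≠ none → copy v ≠ none → copy u = copy v := by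
    rintro u v (⟨a, b, rfl, rfl, h⟩ | ⟨a, b, rfl, rfl, h⟩) hu hv
    · rcases b with _ | b
      · exact absurd rfl hv
      · exact congrArg some h.1
    · rcases b with _ | b
      · exact absurd rfl hu
      · exact congrArg some h.1.symm
  have hfix : ∀ v, v ∈ Fix (tw g, ext g) ↔ copy v = none := by
    intro v
    constructor
    · intro hv
      have := hcopy v
      rw [show act (tw g, ext g) v = v from hv] at this
      revert this
      rcases copy v with _ | (_ | _) <;> simp
    · intro hv
      rcases v with a | (_ | b)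
      · cases hv
      · rfl
      · cases hv
  have hinv : (tw g, ext g) * (tw g, ext g) = 1 := by
    refine Prod.ext (tw_mul_self g) ?_
    ext1 b
    rcases b with _ | b
    · rfl
    · show some (tw g (tw g b)) = some b
      have := congrArg (fun f : Equiv.Perm (Bool × ZMod 7) => f b) (tw_mul_self g)
      exact congrArg some this
  have himg : ∀ v, v ∈ act (tw g, ext g) '' {v | copy v = some false} ↔ copy v = some true := by
    intro v
    constructor
    · rintro ⟨w, hw, rfl⟩
      rw [hcopy, show copy w = some false from hw]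
      rfl
    · intro hv
      refine ⟨act (tw g, ext g) v, ?_, act_act _ hinv v⟩
      show copy (act (tw g, ext g) v) = some false
      rw [hcopy, hv]
      rfl
  refine ⟨⟨?_, hinv, ?_⟩, ?_, ?_, ?_, ?_, ?_⟩
  · intro a b
    rcases b with _ | b
    · exact Iff.rfl
    · exact tw_E g hg a b
  · intro hpre
    have hu : (Sum.inl (false, 0) : (Bool × ZMod 7) ⊕ Option (Bool × ZMod 7)) ∈
        (Fix (tw g, ext g))ᶜ := by
      intro hh
      cases (hfix _).1 hh
    have hv : (Sum.inl (true, 0) : (Bool × ZMod 7) ⊕ Option (Bool × ZMod 7)) ∈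
        (Fix (tw g, ext g))ᶜ := by
      intro hh
      cases (hfix _).1 hh
    obtain ⟨p⟩ := hpre ⟨_, hu⟩ ⟨_, hv⟩
    have hw : ∀ (x y : ((Fix (tw g, ext g))ᶜ : Set ((Bool × ZMod 7) ⊕ Option (Bool × ZMod 7))))
        (p : ((graph E1).induce (Fix (tw g, ext g))ᶜ).Walk x y), copy x.1 = copy y.1 := by
      intro x y p
      induction p with
      | nil => rfl
      | @cons x y z hadj' _ ih =>
        refine (hadj _ _ hadj' ?_ ?_).trans ih
        · intro hh
          exact x.2 ((hfix _).2 hh)
        · intro hh
          exact y.2 ((hfix _).2 hh)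
    have := hw _ _ p
    simp [copy] at this
  · intro u v hu hv h hL
    show copy v = some false
    rw [← hadj u v h (fun hh => hu ((hfix _).2 hh)) (fun hh => hv ((hfix _).2 hh))]
    exact hL
  · ext v
    constructor
    · rintro ⟨h1, h2⟩
      rw [hfix] at h2
      rw [show copy v = some false from h1] at h2
      cases h2
    · intro hv
      exact hv.elim
  · ext v
    constructor
    · rintro ⟨h1, h2⟩
      rw [hfix] at h2
      rw [himg, h2] at h1
      cases h1
    · intro hv
      exact hv.elim
  · ext v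
    constructor
    · rintro ⟨h1, h2⟩
      rw [himg] at h2
      rw [show copy v = some false from h1] at h2
      cases h2
    · intro hv
      exact hv.elim
  · ext v
    constructor
    · intro _
      trivial
    · intro _
      rcases hb : copy v with _ | (_ | _)
      · exact Or.inl (Or.inr ((hfix v).2 hb))
      · exact Or.inl (Or.inl hb)
      · exact Or.inr ((himg v).2 hb)

theorem tw_mem (g : Equiv.Perm (ZMod 7)) (hg : Good g) : (tw g, ext g) ∈ foldGroup E1 :=
  Subgroup.subset_closure ⟨_, tw_fold g hg⟩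

theorem left_transitive (a a' : Bool × ZMod 7) : ∃ φ ∈ foldGroup E1, φ.1 a = a' := by
  obtain ⟨i, x⟩ := a
  obtain ⟨i', x'⟩ := a'
  obtain ⟨y, h2, -⟩ := line_ex x x
  obtain ⟨y', h4, -⟩ := line_ex x' x'
  obtain ⟨g, hg, hgx, -⟩ := exists_good x y x' y' h2 h4
  obtain ⟨k, hk, hkx, -⟩ := exists_good x' y' x y h4 h2
  have hkx' : k.symm x = x' := by rw [← hkx, Equiv.symm_apply_apply]
  cases i <;> cases i'
  · refine ⟨(tw k, ext k) * (tw 1, ext 1), mul_mem (tw_mem k hk) (tw_mem 1 good_one), ?_⟩
    show tw k (tw 1 (false, x)) = (false, x')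
    rw [tw_false, tw_true]
    exact Prod.ext rfl hkx'
  · refine ⟨(tw g, ext g), tw_mem g hg, ?_⟩
    show tw g (false, x) = (true, x')
    rw [tw_false, hgx]
  · refine ⟨(tw k, ext k), tw_mem k hk, ?_⟩
    show tw k (true, x) = (false, x')
    rw [tw_true, hkx']
  · refine ⟨(tw g, ext g) * (tw 1, ext 1), mul_mem (tw_mem g hg) (tw_mem 1 good_one), ?_⟩
    show tw g (tw 1 (true, x)) = (true, x')
    rw [tw_true, tw_false]
    exact Prod.ext rfl hgx

theorem not_percolating : ¬ LeftCutPercolating E1 := by
  rintro ⟨m, s, ⟨a, hs0⟩, hsm, hstep⟩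
  have inv : ∀ i ≤ m, ∀ e ∈ s i, ∀ f ∈ s i, e.1 = f.1 → e = f := by
    intro i
    induction i with
    | zero =>
      intro _ e he f hf _
      rw [hs0] at he hf
      rw [Set.mem_singleton_iff] at he hf
      rw [he, hf]
    | succ i ih =>
      intro hi e he f hf hef
      obtain ⟨φ, L, hfold, hs⟩ := hstep i (by omega)
      rw [hs] at he hf
      obtain ⟨h1, c, hc1⟩ := fold_class hfold
      rw [Set.mem_setOf_eq] at he hf
      unfold foldA at he hf
      by_cases hec : e.1 = c
      · rw [if_pos ((hc1 _).2 hec)] at he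
        rw [if_pos ((hc1 _).2 (hef.symm.trans hec))] at hf
        exact ih (by omega) e he f hf hef
      · rw [if_neg (fun h => hec ((hc1 _).1 h))] at he
        rw [if_neg (fun h => hec (hef.trans ((hc1 _).1 h)))] at hf
        refine φ.1.injective (ih (by omega) _ he _ hf ?_)
        have g1 := h1 e
        have g2 := h1 f
        rw [← hef] at g2
        revert g1 g2
        cases (φ.1 e).1 <;> cases (φ.1 f).1 <;> cases e.1 <;> simp
  have h := inv m le_rfl (false, 1) (by rw [hsm]; trivial) (false, 2) (by rw [hsm]; trivial) rfl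
  have h2 := congrArg Prod.snd h
  revert h2
  decide

theorem connected : (graph E1).Connected := by
  have h0 : ∀ v, (graph E1).Reachable v (Sum.inr none) := by
    have hA : ∀ a, (graph E1).Reachable (Sum.inl a) (Sum.inr none) := fun a =>
      ((adj_iff E1 a none).2 trivial).reachable
    rintro (a | (_ | ⟨i, y⟩))
    · exact hA a
    · exact SimpleGraph.Reachable.refl _
    · obtain ⟨x, hx⟩ := pt_on y
      have : (graph E1).Adj (Sum.inl (i, x)) (Sum.inr (some (i, y))) :=
        (adj_iff E1 (i, x) (some (i, y))).2 ⟨rfl, hx⟩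
      exact this.symm.reachable.trans (hA _)
  rw [SimpleGraph.connected_iff]
  exact ⟨fun u v => (h0 u).trans (h0 v).symm, ⟨Sum.inr none⟩⟩

/-- **Theorem.** There is a (finite, connected) bigraph whose fold group acts transitively on its
left vertices but which is not left-cut-percolating. -/
theorem result : ∃ (A B : Type) (_ : Finite A) (_ : Finite B) (E : A → B → Prop),
    (graph E).Connected ∧ (∀ a a' : A, ∃ φ ∈ foldGroup E, φ.1 a = a') ∧ ¬ LeftCutPercolating E :=
  ⟨Bool × ZMod 7, Option (Bool × ZMod 7), inferInstance, inferInstance, E1, connected,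
    left_transitive, not_percolating⟩

end Pool.Agent.Results.MP_d5e15b_co.TwoHeawoodLeft
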